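import Pool.Agent.W651.OB.Square
import Pool.Agent.W352.CHF

/-!
# o-bounded groups on which player I wins the open-finite game

* If no family of fewer than `𝔠` dense open sets of `ℕ → ℤ` has empty intersection (that is
  `cov(M) = 𝔠`; a consequence of the continuum hypothesis and of Martin's axiom), then there is a
  separable metrizable abelian topological group which is o-bounded and on which player I has a
  winning strategy in the open-finite game.
* The continuum hypothesis implies `cov(M) = 𝔠`, and it is forced by a preordered set of conditions.
* In ZFC: if player I has a winning strategy in the open-finite game on a topological group `G`,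
  then `G × G` is not o-bounded.

The forcing language is the one of `Pool.Agent.Helper669.Forcing`: a sentence is the set of the
conditions which force it, `fnot`, `fand`, `fall` are the primitive connectives and `fimp`, `fex`
are defined from them classically; a name for a relation between ground model sets `X` and `Y` is a
map sending `x : X` and `y : Y` to a set of conditions, and `meets N` says that the generic filter
meets `N`. `OmegaOnePreserved P` says that no function from the natural numbers onto the ground
model `ω₁` exists in the extension, and `ContinuumLe P Om1` says that in the extension there is a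
map from `ω₁` onto the set of all functions from the natural numbers to themselves.
-/

set_option autoImplicit false

namespace Pool.Agent.Results.MP_b00c97_gt.WinsCH

open Set Cardinal Topology Pointwise Pool.Agent.Helper669.Forcing Pool.Agent.W684.FM

/-- A subset `A` of a topological group is `o`-bounded: for every sequence `U n` of neighbourhoods
of the neutral element there are finite sets `F n` with `A ⊆ ⋃ n, F n * U n`. -/
def IsOBounded {G : Type} [Group G] [TopologicalSpace G] (A : Set G) : Prop :=
  ∀ U : ℕ → Set G, (∀ n, U n ∈ 𝓝 (1 : G)) → ∃ F : ℕ → Finset G, A ⊆ ⋃ n, (F n : Set G) * U n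

/-- Player I has a winning strategy in the open-finite game `OF(A)`: there is a rule `σ` which
assigns to the list of the earlier moves `F 0, …, F (n - 1)` of player II a neighbourhood of the
neutral element, such that `A ⊄ ⋃ n, F n * U n` for every sequence `F` of moves of player II, where
`U n` is the answer of `σ` to the first `n` moves. -/
def PlayerIWins {G : Type} [Group G] [TopologicalSpace G] (A : Set G) : Prop :=
  ∃ σ : List (Finset G) → Set G, (∀ l, σ l ∈ 𝓝 (1 : G)) ∧
    ∀ F : ℕ → Finset G, ¬ A ⊆ ⋃ n, (F n : Set G) * σ ((List.range n).map F)

/-- `cov(M) = 𝔠`: every family of fewer than `𝔠` dense open subsets of the Polish space `ℕ → ℤ`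
has nonempty intersection. -/
def CovMeagerIsContinuum : Prop :=
  ∀ 𝓓 : Set (Set (ℕ → ℤ)), #𝓓 < 𝔠 → (∀ D ∈ 𝓓, IsOpen D ∧ Dense D) → (⋂₀ 𝓓).Nonempty

/-- (1) There is a preordered set `P` of forcing conditions such that every condition forces that
`ω₁` is preserved and that the continuum is at most `ω₁`; (2) the plain form of the latter is the
continuum hypothesis, which (3) implies `cov(M) = 𝔠`. (4) If `cov(M) = 𝔠`, then there is a
separable metrizable abelian topological group `G` which is `o`-bounded and for which player I has
a winning strategy in `OF(G)`. (5) For every topological group `G`, if player I has a winning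
strategy in `OF(G)`, then `G × G` is not `o`-bounded. -/
theorem result :
    (∃ (P : Type) (_ : Preorder P), Nonempty P ∧ ∀ p : P,
      p ∈ OmegaOnePreserved P ∧ p ∈ ContinuumLe P Om1) ∧
    ((∃ E : Om1 → ℕ → ℕ, Function.Surjective E) ↔ (𝔠 : Cardinal.{0}) = ℵ₁) ∧
    ((𝔠 : Cardinal.{0}) = ℵ₁ → CovMeagerIsContinuum) ∧
    (CovMeagerIsContinuum → ∃ (G : Type) (_ : CommGroup G) (_ : TopologicalSpace G),
      IsTopologicalGroup G ∧ TopologicalSpace.MetrizableSpace G ∧
      TopologicalSpace.SeparableSpace G ∧
      IsOBounded (Set.univ : Set G) ∧ PlayerIWins (Set.univ : Set G)) ∧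
    (∀ (G : Type) [Group G] [TopologicalSpace G] [IsTopologicalGroup G],
      PlayerIWins (Set.univ : Set G) → ¬ IsOBounded (Set.univ : Set (G × G))) := by
  refine ⟨Pool.Agent.W352.CHF.exists_forcing, ?_, Pool.Agent.W651.OB.covM_of_CH, fun hcov => ?_,
    fun G _ _ _ h => Pool.Agent.W651.OB.not_isOBounded_square h⟩
  · have h1 : #(ℕ → ℕ) = (𝔠 : Cardinal.{0}) := by
      simp
    have h2 : #Om1 = ℵ₁ := Cardinal.mk_ord_toType _
    constructor
    · rintro ⟨E, hE⟩
      have h3 := mk_le_of_surjective hE
      rw [h1, h2] at h3
      exact le_antisymm h3 Cardinal.aleph_one_le_continuum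
    · intro h
      have h3 : #(ℕ → ℕ) ≤ #Om1 := by rw [h1, h2, h]
      obtain ⟨e⟩ := h3
      exact ⟨Function.invFun e, Function.invFun_surjective e.injective⟩
  · obtain ⟨H, hb, hs⟩ := Pool.Agent.W651.OB.exists_core hcov
    have h2 : SecondCountableTopology H :=
      TopologicalSpace.Subtype.secondCountableTopology (H : Set (ℕ → ℤ))
    have h3 : T3Space H := (Topology.IsEmbedding.subtypeVal (p := fun x => x ∈ H)).t3Space
    have h4 : TopologicalSpace.MetrizableSpace H :=
      TopologicalSpace.metrizableSpace_of_t3_secondCountable H
    have h5 : TopologicalSpace.SeparableSpace H := inferInstance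
    refine ⟨Multiplicative H, inferInstance, inferInstance, inferInstance, h4, h5,
      Pool.Agent.W651.OB.isOBounded_univ H hs, Pool.Agent.W651.OB.playerIWins_univ H hb⟩

end Pool.Agent.Results.MP_b00c97_gt.WinsCH
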